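import Mathlib
import Pool.Agent.H620R2.Gauge.Defs

/-!
# All advice strings are defeated one after the other
-/

set_option autoImplicit false

namespace Pool.Agent.Y274.EV

open Finset
open Pool.Agent.H620R2.Gauge (Oracle)

open Classical in
/-- the contents at the positions `e` are changed to `v` -/
noncomputable def setE (B : Oracle) {m : ℕ} (e : Fin m → List Bool) (v : Fin m → Bool) : Oracle :=
  fun y => if h : ∃ i : Fin m, e i = y then v h.choose else B y

section

variable {B : Oracle} {m : ℕ} {e : Fin m → List Bool} {v : Fin m → Bool}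

theorem setE_pos (he : Function.Injective e) (i : Fin m) : setE B e v (e i) = v i := by
  unfold setE
  have h : ∃ j : Fin m, e j = e i := ⟨i, rfl⟩
  rw [dif_pos h, he h.choose_spec]

theorem setE_off {y : List Bool} (h : ∀ i, e i ≠ y) : setE B e v y = B y := by
  unfold setE
  rw [dif_neg]
  rintro ⟨i, hi⟩
  exact h i hi

theorem setE_diff_sub (he : Function.Injective e) :
    {y | B y ≠ setE B e v y} ⊆ e '' {i | B (e i) ≠ v i} := by
  intro y hy
  by_cases h : ∃ i : Fin m, e i = y
  · obtain ⟨i, rfl⟩ := h
    refine ⟨i, ?_, rfl⟩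
    have h1 : B (e i) ≠ setE B e v (e i) := hy
    rw [setE_pos he] at h1
    exact h1
  · push Not at h
    exact absurd (setE_off (B := B) (v := v) h).symm hy

theorem setE_finite (he : Function.Injective e) : {y | B y ≠ setE B e v y}.Finite :=
  (Set.toFinite _).subset (setE_diff_sub he)

theorem setE_card (he : Function.Injective e) :
    {y | B y ≠ setE B e v y}.ncard ≤ hammingDist (fun i => B (e i)) v := by
  refine (Set.ncard_le_ncard (setE_diff_sub he) (Set.toFinite _)).trans ?_
  refine (Set.ncard_image_le (Set.toFinite _)).trans (le_of_eq ?_)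
  unfold hammingDist
  rw [← Set.ncard_coe_finset]
  congr 1
  ext i
  simp

end

/-- All `h` in `H` err after few changes. -/
theorem defeat {Z ι : Type} [Fintype Z] {m R q T : ℕ} (e : Z → Fin m → List Bool)
    (he : ∀ z z' i i', e z i = e z' i' → z = z' ∧ i = i') (H : Finset ι)
    (Acc : Oracle → (Fin m → Bool) → ι → Prop)
    (hAcc : ∀ (B : Oracle) (v : Fin m → Bool), ∀ h ∈ H, Acc B v h →
      ∃ Q : Finset (List Bool), Q.card ≤ q ∧
        ∀ B' : Oracle, (∀ y ∈ Q, B' y = B y) → Acc B' v h)
    (hT : H.card * (q + 1) + q + 1 ≤ T)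
    (hblock : ∀ W : Z → Fin m → Bool, ∃ v : Fin m → Bool, (∀ z, 0 < hammingDist (W z) v) ∧
      T ≤ (univ.filter fun z => hammingDist (W z) v ≤ R).card) (B : Oracle) :
    ∃ B' : Oracle, (∀ y, (∀ z i, e z i ≠ y) → B' y = B y) ∧ {y | B y ≠ B' y}.Finite ∧
      {y | B y ≠ B' y}.ncard ≤ H.card * R ∧
      ∀ h ∈ H, ∃ v : Fin m → Bool, ((∃ z, ∀ i, B' (e z i) = v i) ↔ Acc B' v h) := by
  classical
  have key : ∀ j : ℕ, j ≤ H.card →
      (∃ B' : Oracle, (∀ y, (∀ z i, e z i ≠ y) → B' y = B y) ∧ {y | B y ≠ B' y}.Finite ∧
        {y | B y ≠ B' y}.ncard ≤ H.card * R ∧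
        ∀ h ∈ H, ∃ v : Fin m → Bool, ((∃ z, ∀ i, B' (e z i) = v i) ↔ Acc B' v h)) ∨
      ∃ (B' : Oracle) (G : Finset ι) (Zp : Finset Z), G ⊆ H ∧ G.card = j ∧
        Zp.card ≤ j * (q + 1) ∧ (∀ y, (∀ z i, e z i ≠ y) → B' y = B y) ∧
        {y | B y ≠ B' y}.Finite ∧ {y | B y ≠ B' y}.ncard ≤ j * R ∧
        ∀ B'' : Oracle, (∀ y, (∀ z, z ∉ Zp → ∀ i, e z i ≠ y) → B'' y = B' y) →
          ∀ h ∈ G, ∃ v : Fin m → Bool, (∃ z, ∀ i, B'' (e z i) = v i) ∧ Acc B'' v h := by
    intro j
    induction j with
    | zero =>
      intro _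
      exact Or.inr ⟨B, ∅, ∅, by simp, by simp, by simp, fun y _ => rfl, by simp, by simp,
        fun B'' _ h hh => absurd hh (Finset.notMem_empty _)⟩
    | succ j ih =>
      intro hj
      rcases ih (by omega) with h0 | ⟨B₁, G, Zp, hGH, hGj, hZp, hoff, hfin, hcard, hinv⟩
      · exact Or.inl h0
      by_cases hall : ∀ h ∈ H, ∃ v : Fin m → Bool, ((∃ z, ∀ i, B₁ (e z i) = v i) ↔ Acc B₁ v h)
      · exact Or.inl ⟨B₁, hoff, hfin,
          hcard.trans (Nat.mul_le_mul_right _ (by omega)), hall⟩
      push Not at hall
      obtain ⟨h, hh, hne⟩ := hall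
      have hhG : h ∉ G := by
        intro hG
        obtain ⟨v, h1, h2⟩ := hinv B₁ (fun y _ => rfl) h hG
        rcases hne v with h3 | h3
        · exact h3.2 h2
        · obtain ⟨z, hz⟩ := h1
          obtain ⟨i, hi⟩ := h3.1 z
          exact hi (hz i)
      obtain ⟨v, hv1, hv2⟩ := hblock (fun z i => B₁ (e z i))
      have hocc : ¬ ∃ z, ∀ i, B₁ (e z i) = v i := by
        rintro ⟨z, hz⟩
        have h1 := hv1 z
        have h2 : (fun i => B₁ (e z i)) = v := funext hz
        rw [h2, hammingDist_self] at h1
        exact lt_irrefl _ h1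
      have hacc : Acc B₁ v h := by
        rcases hne v with h3 | h3
        · exact absurd h3.1 hocc
        · exact h3.2
      obtain ⟨Q, hQq, hQ⟩ := hAcc B₁ v h hh hacc
      set Zq : Finset Z := univ.filter (fun z => ∃ i, e z i ∈ Q) with hZq
      have hZqc : Zq.card ≤ q := by
        refine le_trans ?_ hQq
        refine Finset.card_le_card_of_injOn
          (fun z => if h : ∃ i, e z i ∈ Q then e z h.choose else []) ?_ ?_
        · intro z hz
          have hz' : ∃ i, e z i ∈ Q := (Finset.mem_filter.1 hz).2
          beta_reduce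
          rw [dif_pos hz']
          exact hz'.choose_spec
        · intro z hz z' hz' hzz
          have h1 : ∃ i, e z i ∈ Q := (Finset.mem_filter.1 hz).2
          have h2 : ∃ i, e z' i ∈ Q := (Finset.mem_filter.1 hz').2
          beta_reduce at hzz
          rw [dif_pos h1, dif_pos h2] at hzz
          exact (he _ _ _ _ hzz).1
      -- a free window near `v`
      obtain ⟨z, hz1, hz2⟩ : ∃ z ∈ (univ.filter fun z => hammingDist (fun i => B₁ (e z i)) v ≤ R),
          z ∉ Zp ∪ Zq := by
        by_contra hcon
        push Not at hcon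
        have h1 := Finset.card_le_card (fun z hz => hcon z hz :
          (univ.filter fun z => hammingDist (fun i => B₁ (e z i)) v ≤ R) ⊆ Zp ∪ Zq)
        have h2 := Finset.card_union_le Zp Zq
        have h3 : j * (q + 1) ≤ H.card * (q + 1) := Nat.mul_le_mul_right _ (by omega)
        omega
      have hzd := (Finset.mem_filter.1 hz1).2
      rw [Finset.mem_union, not_or] at hz2
      obtain ⟨hzp, hzq⟩ := hz2
      have hzQ : ∀ i, e z i ∉ Q := by
        intro i hi
        exact hzq (Finset.mem_filter.2 ⟨mem_univ _, i, hi⟩)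
      have hei : Function.Injective (e z) := fun i i' hii => (he _ _ _ _ hii).2
      refine Or.inr ⟨setE B₁ (e z) v, insert h G, insert z (Zp ∪ Zq), ?_, ?_, ?_, ?_, ?_, ?_, ?_⟩
      · exact Finset.insert_subset hh hGH
      · rw [Finset.card_insert_of_notMem hhG, hGj]
      · have h1 := Finset.card_insert_le z (Zp ∪ Zq)
        have h2 := Finset.card_union_le Zp Zq
        have h3 : (j + 1) * (q + 1) = j * (q + 1) + (q + 1) := by ring
        omega
      · intro y hy
        rw [setE_off (hy z)]
        exact hoff y hy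
      · refine (hfin.union (setE_finite (B := B₁) (v := v) hei)).subset ?_
        intro y hy
        by_cases h1 : B y = B₁ y
        · right
          show B₁ y ≠ _
          rw [← h1]
          exact hy
        · left
          exact h1
      · refine (Set.ncard_le_ncard (t := {y | B y ≠ B₁ y} ∪ {y | B₁ y ≠ setE B₁ (e z) v y}) ?_
          (hfin.union (setE_finite (B := B₁) (v := v) hei))).trans ?_
        · intro y hy
          by_cases h1 : B y = B₁ y
          · right
            show B₁ y ≠ _
            rw [← h1]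
            exact hy
          · left
            exact h1
        · refine (Set.ncard_union_le _ _).trans ?_
          have h1 := setE_card (B := B₁) (v := v) hei
          have h3 : (j + 1) * R = j * R + R := by ring
          omega
      · intro B'' hB'' h' hh'
        rcases Finset.mem_insert.1 hh' with rfl | hG
        · refine ⟨v, ⟨z, fun i => ?_⟩, hQ B'' fun y hy => ?_⟩
          · rw [hB'' (e z i) ?_, setE_pos hei]
            intro z' hz' i' hi'
            apply hz'
            rw [(he _ _ _ _ hi').1]
            exact Finset.mem_insert_self _ _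
          · rw [hB'' y ?_, setE_off ?_]
            · intro i hi
              exact hzQ i (hi ▸ hy)
            · intro z' hz' i' hi'
              apply hz'
              refine Finset.mem_insert_of_mem (Finset.mem_union_right _ ?_)
              exact Finset.mem_filter.2 ⟨mem_univ _, i', hi' ▸ hy⟩
        · refine hinv B'' (fun y hy => ?_) h' hG
          rw [hB'' y ?_, setE_off ?_]
          · exact hy z hzp
          · intro z' hz'
            exact hy z' (fun h1 => hz' (Finset.mem_insert_of_mem (Finset.mem_union_left _ h1)))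
  rcases key H.card le_rfl with h0 | ⟨B', G, Zp, hGH, hGj, hZp, hoff, hfin, hcard, hinv⟩
  · exact h0
  · have hG : G = H := Finset.eq_of_subset_of_card_le hGH hGj.ge
    subst hG
    refine ⟨B', hoff, hfin, hcard, fun h hh => ?_⟩
    obtain ⟨v, h1, h2⟩ := hinv B' (fun y _ => rfl) h hh
    exact ⟨v, fun _ => h2, fun _ => h1⟩

end Pool.Agent.Y274.EV
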